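import Pool.Agent.helper36.UT.Spec

/-! # Project UT, row BTM: congruence modulo `2 ^ L` gives the first `L` digits -/

set_option autoImplicit false

open Filter Polynomial FirstOrder FirstOrder.Language

namespace Pool.Agent.UnivT

theorem BTM_val (s : ℕ → Bool) (L : ℕ) :
    val s (L + 1) = (if s 0 then 1 else 0) + 2 * val (fun i => s (i + 1)) L := by
  unfold val
  rw [Finset.sum_range_succ', add_comm, Finset.mul_sum]
  refine congrArg₂ (· + ·) ?_ ?_
  · simp only [pow_zero]
  · refine Finset.sum_congr rfl fun i _ => ?_
    by_cases h : s (i + 1) = true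
    · simp only [h, if_true]
      ring
    · rw [if_neg h, if_neg h, mul_zero]

theorem BTM : BTM_stmt := by
  intro m s L
  induction L generalizing m s with
  | zero =>
    intro _ i hi
    omega
  | succ L ih =>
    intro h i hi
    obtain ⟨b, n, rfl⟩ : ∃ (b : Bool) (n : ℤ), m = Int.bit b n := ⟨_, _, (Int.bit_decomp m).symm⟩
    rw [BTM_val, Int.bit_val] at h
    have h2 : (2 : ℤ) ∣ 2 * n + (cond b 1 0) -
        ((if s 0 then 1 else 0) + 2 * val (fun i => s (i + 1)) L) :=
      (dvd_pow_self (2 : ℤ) (Nat.succ_ne_zero L)).trans h
    have hb : b = s 0 := by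
      cases b <;> cases hs : s 0
      · rfl
      · exfalso
        rw [hs] at h2
        simp only [cond_false, if_true] at h2
        omega
      · exfalso
        rw [hs] at h2
        simp only [cond_true, Bool.false_eq_true, if_false] at h2
        omega
      · rfl
    have h3 : (2 : ℤ) ^ L ∣ n - val (fun i => s (i + 1)) L := by
      have h4 : 2 * n + (cond b 1 0) - ((if s 0 then 1 else 0) + 2 * val (fun i => s (i + 1)) L) =
          2 * (n - val (fun i => s (i + 1)) L) := by
        rw [hb]
        cases s 0
        · simp only [cond_false, Bool.false_eq_true, if_false]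
          ring
        · simp only [cond_true, if_true]
          ring
      rw [h4, pow_succ, mul_comm ((2 : ℤ) ^ L) 2] at h
      exact (mul_dvd_mul_iff_left (by norm_num)).1 h
    rcases i with _ | i
    · rw [Int.testBit_bit_zero]
      exact hb
    · rw [Int.testBit_bit_succ]
      exact ih n (fun i => s (i + 1)) h3 i (by omega)

end Pool.Agent.UnivT
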